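import Pool.Agent.K1H80.KA.AsmT
import Pool.Agent.K1H11.KA.Trb
import Pool.Agent.K1H1.KA.Rkc
import Pool.Agent.K1H89.KA.StepLin
import Pool.Agent.K1H52.KA.BaseLin
import Pool.Agent.K1H64.KT.StepAlg
import Pool.Agent.K1H86.KT.BaseAlg
import Pool.Agent.K1H26.KT.Area
import Pool.Agent.K1H77.KA.NB
import Pool.Agent.K1H10.KA.Gen
import Pool.Agent.K1H31.KA.Fib
import Pool.Agent.K1H33.KA.Kd

/-!
# Part (b) of MP_188fab_co for a class of pairs of graphs: true exactly outside characteristic two

`Edge`, `gen`, `J`, `jacobian` and `analyticSpread` are the definitions of `JacobianCharTwo`.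
-/

namespace Pool.Agent.Results.MP_188fab_co.CharTwoDichotomy

open MvPolynomial Pool.Agent.Results.MP_188fab_co.JacobianCharTwo

/-- Let `G` and `H` be connected graphs in which every vertex has degree at least two; let `G`
contain a triangle, and let `H` be non-bipartite.  Then over every field `F` the analytic spread of
`J_{G,H}` is `|V(G)| |V(H)|`, and it is equal to the rank of the Jacobian matrix of the generators
if and only if the characteristic of `F` is not two. -/
theorem result (F : Type) [Field F] {V W : Type} [Fintype V] [Fintype W] [LinearOrder V]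
    [LinearOrder W] (G : SimpleGraph V) (H : SimpleGraph W) (hG : G.Connected) (hH : H.Connected)
    (hG2 : ∀ v, 2 ≤ (G.neighborSet v).ncard) (hH2 : ∀ w, 2 ≤ (H.neighborSet w).ncard)
    (htri : ¬ G.CliqueFree 3) (hnb : ¬ H.Colorable 2) :
    analyticSpread (J F G H) = ((Fintype.card V * Fintype.card W : ℕ) : WithBot ℕ∞) ∧
      (((jacobian F G H).rank : WithBot ℕ∞) = analyticSpread (J F G H) ↔ ringChar F ≠ 2) :=
  KA.mainT K1H89.KA.steplin K1H52.KA.baselin K1H64.KT.stepalg K1H86.KT.basealg K1H26.KT.area
    K1H77.KA.nb K1H10.KA.gen K1H11.KA.trb K1H1.KA.Rkc.rkc K1H31.KA.fib K1H33.KA.kd F G H hG hH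
    hG2 hH2 htri hnb

end Pool.Agent.Results.MP_188fab_co.CharTwoDichotomy
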