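import Pool.Agent.K1H80.KA.AsmB
import Pool.Agent.K1H31.KA.Fib
import Pool.Agent.K1H33.KA.Kd
import Pool.Agent.K1H11.KB.Rk

/-!
# Part (b) of MP_188fab_co for `H = K_2`, over every field

The rank of the Jacobian matrix of the forms `x_i y_j - x_j y_i`, `{i, j} ∈ E(G)`, equals the
analytic spread of the ideal which they generate, and the rank of the `2`-hyperconnectivity matroid
of `G`, over every field.  `Edge`, `gen`, `J`, `jacobian` and `analyticSpread` are the definitions
of `JacobianCharTwo`.
-/

namespace Pool.Agent.Results.MP_188fab_co.EdgeFactorAllFields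

open MvPolynomial Pool.Agent.Results.MP_188fab_co.JacobianCharTwo

/-- The generic vector `v_i = (x_i, y_i)` over the field `K(x_1, ..., x_n, y_1, ..., y_n)`. -/
noncomputable def vec (K : Type) [Field K] {n : ℕ} (i : Fin n) :
    Fin 2 → FractionRing (MvPolynomial (Fin n × Fin 2) K) :=
  fun t => algebraMap (MvPolynomial (Fin n × Fin 2) K)
    (FractionRing (MvPolynomial (Fin n × Fin 2) K)) (X (i, t))

/-- The matrix of the `2`-hyperconnectivity matroid `H_2(G)`: the row of the edge `{i, j}`, `i < j`,
has `v_j` in block `i`, `-v_i` in block `j` and `0` elsewhere. -/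
noncomputable def hyperMatrix (K : Type) [Field K] {n : ℕ} (G : SimpleGraph (Fin n)) :
    Matrix (Edge G) (Fin n × Fin 2) (FractionRing (MvPolynomial (Fin n × Fin 2) K)) :=
  Matrix.of fun e q =>
    if q.1 = e.1.1 then vec K e.1.2 q.2 else if q.1 = e.1.2 then - vec K e.1.1 q.2 else 0

/-- For every field `F` and every graph `G` on `n` vertices, the rank of the Jacobian matrix
`H(G, K_2)` equals the analytic spread of `J_{G, K_2}`; the common value is the rank of the
`2`-hyperconnectivity matroid of `G`, taken with generic vectors over any field `K`. -/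
theorem result (F K : Type) [Field F] [Field K] (n : ℕ) (G : SimpleGraph (Fin n)) :
    ((jacobian F G (⊤ : SimpleGraph (Fin 2))).rank : WithBot ℕ∞) =
      analyticSpread (J F G (⊤ : SimpleGraph (Fin 2))) ∧
    (jacobian F G (⊤ : SimpleGraph (Fin 2))).rank = (hyperMatrix K G).rank :=
  KA.mainB K1H31.KA.fib K1H33.KA.kd K1H11.KB.rk F K n G

end Pool.Agent.Results.MP_188fab_co.EdgeFactorAllFields
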