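import Pool.Agent.K1H80.KA.Thm

/-!
# Part (a) of MP_188fab_co for every field

The algebraic matroid of the forms `x_i y_j - x_j y_i`, `{i, j} ∈ E(G)`, over any field `F` is the
`2`-hyperconnectivity matroid of `G`.
-/

namespace Pool.Agent.Results.MP_188fab_co.MinorsAllFields

open MvPolynomial

/-- The edges of `G`, each written as the pair `(i, j)` with `i < j`. -/
def Edge {n : ℕ} (G : SimpleGraph (Fin n)) : Type :=
  {p : Fin n × Fin n // p.1 < p.2 ∧ G.Adj p.1 p.2}

/-- The form `f_{i,j} = x_i y_j - x_j y_i`, where `x_i = X (i, 0)` and `y_i = X (i, 1)`. -/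
noncomputable def form (F : Type) [Field F] {n : ℕ} (i j : Fin n) :
    MvPolynomial (Fin n × Fin 2) F :=
  X (i, 0) * X (j, 1) - X (j, 0) * X (i, 1)

/-- The generic vector `v_i = (x_i, y_i)` over the field `K(x_1, ..., x_n, y_1, ..., y_n)`. -/
noncomputable def vec (K : Type) [Field K] {n : ℕ} (i : Fin n) :
    Fin 2 → FractionRing (MvPolynomial (Fin n × Fin 2) K) :=
  fun t => algebraMap (MvPolynomial (Fin n × Fin 2) K)
    (FractionRing (MvPolynomial (Fin n × Fin 2) K)) (X (i, t))

/-- The vector of the edge `{i, j}`, `i < j`, in `n` blocks of two coordinates: `v_j` in block `i`,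
`-v_i` in block `j` and `0` elsewhere. -/
noncomputable def edgeVec (K : Type) [Field K] {n : ℕ} (i j : Fin n) :
    Fin n × Fin 2 → FractionRing (MvPolynomial (Fin n × Fin 2) K) :=
  fun q => if q.1 = i then vec K j q.2 else if q.1 = j then - vec K i q.2 else 0

/-- For all fields `F` and `K` and every graph `G` on `n` vertices, a set `S` of edges is
independent in the algebraic matroid of `F ⊂ F(f_{i,j} : {i,j} ∈ E(G))` if and only if it is
independent in the `2`-hyperconnectivity matroid of `G`, taken with generic vectors over `K`. -/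
theorem result (F K : Type) [Field F] [Field K] (n : ℕ) (G : SimpleGraph (Fin n))
    (S : Set (Edge G)) :
    AlgebraicIndependent F (fun e : S => form F e.1.1.1 e.1.1.2) ↔
      LinearIndependent (FractionRing (MvPolynomial (Fin n × Fin 2) K))
        (fun e : S => edgeVec K e.1.1.1 e.1.1.2) := by
  have hfin : Finite (Edge G) := by unfold Edge; infer_instance
  exact KA.main' F K n S (fun e => e.1.1.1)
    (fun e => e.1.1.2) (fun e => e.1.2.1.ne)

end Pool.Agent.Results.MP_188fab_co.MinorsAllFields
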